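import Pool.Agent.W275.ND.Stm
import Pool.Agent.W305.UB.Norm
import Pool.Agent.W125.UB.FinT
import Pool.Agent.H504D.HenonCount

/-! HE-ALG: the points of a given period are algebraic over the field of the coefficients. -/

set_option autoImplicit false

namespace Pool.Agent.W333.ND.HAlg

open MvPolynomial Pool.Agent.H936R2 Pool.Agent.H927R2.RD H294UB Pool.Agent.W275.UB
open Pool.Agent.W275.ND
open Pool.Agent.H504D (hen card_periodic_le)

/-- the polynomial of the Henon map -/
noncomputable def HF {K : Type} [Field K] {d : ℕ} {T : Type} [Fintype T] (v : Hx d T → K) :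
    Polynomial K :=
  ∑ i : Fin (d + 1), Polynomial.C (v (Sum.inl i) / ∏ s : T, v (Sum.inr (some s))) *
    Polynomial.X ^ (i : ℕ)

theorem HF_eval {K : Type} [Field K] {d : ℕ} {T : Type} [Fintype T] (v : Hx d T → K) (x : K) :
    (HF v).eval x = (∑ i : Fin (d + 1), v (Sum.inl i) * x ^ (i : ℕ)) / ∏ s : T, v (Sum.inr (some s)) := by
  unfold HF
  rw [Polynomial.eval_finsetSum, Finset.sum_div]
  refine Finset.sum_congr rfl fun i _ => ?_
  simp only [Polynomial.eval_mul, Polynomial.eval_C, Polynomial.eval_pow, Polynomial.eval_X]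
  ring

theorem HF_natDegree {K : Type} [Field K] {d : ℕ} {T : Type} [Fintype T] (v : Hx d T → K)
    (h : v (Sum.inl (Fin.last d)) / ∏ s : T, v (Sum.inr (some s)) ≠ 0) : (HF v).natDegree = d := by
  have hco : ∀ n : ℕ, (HF v).coeff n = if h : n < d + 1 then
      v (Sum.inl ⟨n, h⟩) / ∏ s : T, v (Sum.inr (some s)) else 0 := by
    intro n
    unfold HF
    rw [Polynomial.finsetSum_coeff]
    simp only [Polynomial.coeff_C_mul, Polynomial.coeff_X_pow]
    split_ifs with hn
    · rw [Finset.sum_eq_single ⟨n, hn⟩]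
      · simp
      · intro j _ hj
        have : n ≠ (j : ℕ) := fun h => hj (Fin.ext h.symm)
        simp [this]
      · intro h; exact absurd (Finset.mem_univ _) h
    · refine Finset.sum_eq_zero fun j _ => ?_
      have : n ≠ (j : ℕ) := fun h => hn (h ▸ j.2)
      simp [this]
  apply le_antisymm
  · rw [Polynomial.natDegree_le_iff_coeff_eq_zero]
    intro n hn
    rw [hco, dif_neg (by omega)]
  · apply Polynomial.le_natDegree_of_ne_zero
    rw [hco, dif_pos (Nat.lt_succ_self d)]
    exact h

theorem main : S_halg := by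
  classical
  intro O J _ _ _ ω d e hd he T _ Ω _ _ _ σ y hy hper
  set v : Hx d T → Ω := cv (fun j => σ (ω j)) (fun q => gn (Hx d T × J) Ω (X q)) with hv
  -- all coefficients are nonzero
  have hv0 : ∀ i, v i ≠ 0 := by
    intro i hi
    obtain ⟨cn, hcn, hdvd⟩ := Pool.Agent.W305.UB.Norm.main O J (Hx d T) ω (X i) (X_ne_zero i)
    have h1 := hdvd Ω σ (fun q => gn (Hx d T × J) Ω (X q))
    rw [← hv, aeval_X, hi, zero_dvd_iff] at h1
    have h2 : aeval (fun q => gn (Hx d T × J) Ω (X q)) cn = gn (Hx d T × J) Ω cn := by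
      have h3 : (aeval (fun q => gn (Hx d T × J) Ω (X q)) : MvPolynomial (Hx d T × J) ℤ →ₐ[ℤ] Ω).toRingHom =
          gn (Hx d T × J) Ω := by
        apply MvPolynomial.ringHom_ext
        · intro n; simp
        · intro q; simp
      exact congrArg (fun f => f cn) (congrArg DFunLike.coe h3)
    rw [h2] at h1
    apply hcn
    have hinj : Function.Injective (gn (Hx d T × J) Ω) := by
      unfold gn
      rw [RingHom.coe_comp]
      exact (algebraMap (EE (Hx d T × J)) Ω).injective.comp (IsFractionRing.injective _ _)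
    exact hinj (by rw [h1, map_zero])
  set m : Ω := ∏ s : T, v (Sum.inr (some s)) with hm
  have hm0 : m ≠ 0 := Finset.prod_ne_zero_iff.2 fun s _ => hv0 _
  -- all coefficients are algebraic
  have hvalg : ∀ i, v i ∈ algebraicClosure (EE (Hx d T × J)) Ω := by
    intro i
    rw [hv]
    unfold cv
    refine sum_mem fun j _ => mul_mem ?_ ?_
    · rw [mem_algebraicClosure_iff]
      have hfin : Module.Finite ℤ O := Module.Finite.of_basis ω
      have h1 : IsIntegral ℤ (ω j) := Algebra.IsIntegral.isIntegral _
      have h2 : IsIntegral ℤ (σ (ω j)) := h1.map (σ.toIntAlgHom)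
      have h3 : IsIntegral (EE (Hx d T × J)) (σ (ω j)) := by
        obtain ⟨P, hP, hP0⟩ := h2
        refine ⟨P.map (Int.castRingHom _), hP.map _, ?_⟩
        rw [Polynomial.eval₂_map]
        rw [show (algebraMap (EE (Hx d T × J)) Ω).comp (Int.castRingHom (EE (Hx d T × J))) =
          algebraMap ℤ Ω from RingHom.ext_int _ _]
        exact hP0
      exact h3.isAlgebraic
    · rw [mem_algebraicClosure_iff]
      unfold gn
      exact isAlgebraic_algebraMap _
  set E' := algebraicClosure (EE (Hx d T × J)) Ω with hE'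
  let v' : Hx d T → E' := fun i => ⟨v i, hvalg i⟩
  have hv' : ∀ i, algebraMap E' Ω (v' i) = v i := fun i => rfl
  let ix : ℕ → Fin e := fun t => ⟨t % e, Nat.mod_lt _ he⟩
  let g : Fin e → MvPolynomial (Fin e) E' := fun i =>
    C (∏ s : T, v' (Sum.inr (some s))) * X (ix (i + 2)) -
      ((∑ k : Fin (d + 1), C (v' (Sum.inl k)) * X (ix (i + 1)) ^ (k : ℕ)) -
        C (v' (Sum.inr none)) * X i)
  have hg : ∀ (x : Fin e → Ω) (i : Fin e), aeval x (g i) = m * x (ix (i + 2)) -
      ((∑ k : Fin (d + 1), v (Sum.inl k) * x (ix (i + 1)) ^ (k : ℕ)) - v (Sum.inr none) * x i) := by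
    intro x i
    simp only [g, map_sub, map_mul, map_sum, map_pow, aeval_X, aeval_C, map_prod, hv', hm]
  have hnat : (HF v).natDegree = d := HF_natDegree v (div_ne_zero (hv0 _) hm0)
  have hcnt : ∀ S : Finset (Fin e → Ω), (∀ x ∈ S, ∀ p ∈ Set.range g, aeval x p = 0) →
      S.card ≤ d ^ e := by
    intro S hS
    -- the orbit of a solution
    have horb : ∀ x ∈ S, ∀ t : ℕ, (hen (HF v) (v (Sum.inr none) / m))^[t] (x (ix 0), x (ix 1)) =
        (x (ix t), x (ix (t + 1))) := by
      intro x hx t
      induction t with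
      | zero => rfl
      | succ t ih =>
        rw [Function.iterate_succ_apply', ih]
        have h1 := hS x hx (g (ix t)) ⟨_, rfl⟩
        rw [hg] at h1
        have e1 : ix ((ix t : ℕ) + 2) = ix (t + 2) := by
          apply Fin.ext; simp [ix, Nat.mod_add_mod]
        have e2 : ix ((ix t : ℕ) + 1) = ix (t + 1) := by
          apply Fin.ext; simp [ix, Nat.mod_add_mod]
        rw [e1, e2] at h1
        unfold hen
        rw [HF_eval, ← hm]
        have h2 : m * x (ix (t + 2)) = (∑ k : Fin (d + 1), v (Sum.inl k) * x (ix (t + 1)) ^ (k : ℕ)) -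
          v (Sum.inr none) * x (ix t) := sub_eq_zero.1 h1
        ext
        · rfl
        · simp only
          rw [show t + 1 + 1 = t + 2 from rfl]
          field_simp
          rw [h2]
    have himg : ∀ P ∈ S.image (fun x => (x (ix 0), x (ix 1))),
        (hen (HF v) (v (Sum.inr none) / m))^[e] P = P := by
      intro P hP
      obtain ⟨x, hx, rfl⟩ := Finset.mem_image.1 hP
      rw [horb x hx e]
      have e1 : ix e = ix 0 := by apply Fin.ext; simp [ix]
      have e2 : ix (e + 1) = ix 1 := by apply Fin.ext; simp [ix]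
      rw [e1, e2]
    have hinj : Set.InjOn (fun x : Fin e → Ω => (x (ix 0), x (ix 1))) S := by
      intro x hx x' hx' h
      simp only at h
      funext i
      have h1 := horb x hx i
      have h2 := horb x' hx' i
      rw [h, h2] at h1
      have h3 := congrArg Prod.fst h1
      have e1 : ix (i : ℕ) = i := by
        apply Fin.ext
        exact Nat.mod_eq_of_lt i.2
      simp only [e1] at h3
      exact h3.symm
    have h4 := card_periodic_le (HF v) (v (Sum.inr none) / m) _ e he (by rw [hnat]; exact hd) himg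
    rw [Finset.card_image_of_injOn hinj, hnat] at h4
    exact h4
  have hfin := Pool.Agent.W125.UB.FinT.fin_main E' Ω e (d ^ e) (Set.range g) hcnt
    (fun i => y i) (by
      rintro _ ⟨i, rfl⟩
      rw [hg]
      have hp : Function.Periodic y e := hper
      have e1 : y ((ix (i + 2) : Fin e) : ℕ) = y (i + 2) := hp.map_mod_nat _
      have e2 : y ((ix (i + 1) : Fin e) : ℕ) = y (i + 1) := hp.map_mod_nat _
      simp only [e1, e2]
      rw [sub_eq_zero]
      exact hy i)
  intro t
  have hp : Function.Periodic y e := hper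
  have h1 := hfin (ix t)
  have h2 : y ((ix t : Fin e) : ℕ) = y t := hp.map_mod_nat _
  simp only [h2] at h1
  exact h1.restrictScalars (EE (Hx d T × J))

end Pool.Agent.W333.ND.HAlg
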